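import Mathlib

set_option autoImplicit false

open Set Filter Topology

open scoped InnerProductSpace

namespace Pool.Agent.H765R3.Had.Grp

theorem angle {V : Type*} [NormedAddCommGroup V] [InnerProductSpace ℝ V] {t u x : V}
    (ht : ‖t‖ = 1) (hu : ‖u‖ = 1) (hx : ‖x‖ = 1) {a b : ℝ} (ha : 0 < a) (hb : 0 ≤ b)
    (hab : a ^ 2 + b ^ 2 = 1) (h1 : a ≤ ⟪u, t⟫_ℝ) (h2 : b < ⟪u, x⟫_ℝ) : 0 < ⟪t, x⟫_ℝ := by
  by_contra hcon
  push Not at hcon
  set α := ⟪u, t⟫_ℝ with hα
  set β := ⟪u, x⟫_ℝ with hβ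
  have e0 : ⟪u, u⟫_ℝ = 1 := by rw [real_inner_self_eq_norm_sq, hu]; norm_num
  have et : ⟪t, t⟫_ℝ = 1 := by rw [real_inner_self_eq_norm_sq, ht]; norm_num
  have ex : ⟪x, x⟫_ℝ = 1 := by rw [real_inner_self_eq_norm_sq, hx]; norm_num
  have e1 : ⟪t - α • u, x - β • u⟫_ℝ = ⟪t, x⟫_ℝ - α * β := by
    rw [inner_sub_left, inner_sub_right, inner_sub_right, inner_smul_left, inner_smul_left,
      inner_smul_right, inner_smul_right, e0, real_inner_comm u t]
    simp only [conj_trivial, ← hα, ← hβ]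
    ring
  have e2 : ‖t - α • u‖ ^ 2 = 1 - α ^ 2 := by
    rw [← real_inner_self_eq_norm_sq, inner_sub_left, inner_sub_right, inner_sub_right,
      inner_smul_left, inner_smul_left, inner_smul_right, inner_smul_right, e0, et,
      real_inner_comm u t]
    simp only [conj_trivial, ← hα]
    ring
  have e3 : ‖x - β • u‖ ^ 2 = 1 - β ^ 2 := by
    rw [← real_inner_self_eq_norm_sq, inner_sub_left, inner_sub_right, inner_sub_right,
      inner_smul_left, inner_smul_left, inner_smul_right, inner_smul_right, e0, ex,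
      real_inner_comm u x]
    simp only [conj_trivial, ← hβ]
    ring
  have h3 : α * β ≤ ‖t - α • u‖ * ‖x - β • u‖ := by
    have := abs_real_inner_le_norm (t - α • u) (x - β • u)
    rw [e1] at this
    have h4 := neg_abs_le (⟪t, x⟫_ℝ - α * β)
    linarith
  have h0 : 0 ≤ α * β := by
    have : 0 ≤ α := by linarith
    have : 0 ≤ β := by linarith
    positivity
  have h5 : (α * β) ^ 2 ≤ (1 - α ^ 2) * (1 - β ^ 2) := by
    calc (α * β) ^ 2 ≤ (‖t - α • u‖ * ‖x - β • u‖) ^ 2 := by gcongr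
      _ = (1 - α ^ 2) * (1 - β ^ 2) := by rw [mul_pow, e2, e3]
  nlinarith

/-- The vertices of a regular simplex are `arccos (1 / m)`-dense on the unit sphere. -/
theorem simplex_dirs (m : ℕ) (hm : 1 ≤ m) : ∃ D : Finset (EuclideanSpace ℝ (Fin m)),
    D.card ≤ m + 1 ∧ (∀ t ∈ D, ‖t‖ = 1) ∧
      ∀ u : EuclideanSpace ℝ (Fin m), ‖u‖ = 1 → ∃ t ∈ D, 1 / (m : ℝ) ≤ ⟪u, t⟫_ℝ := by
  classical
  have hm0 : (0 : ℝ) < m := by exact_mod_cast hm
  set q : ℝ := √m with hq
  have hq0 : 0 < q := Real.sqrt_pos.2 hm0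
  have hq2 : q ^ 2 = m := Real.sq_sqrt hm0.le
  set α : ℝ := √((m + 1) / m) with hα
  have hα2 : α ^ 2 = (m + 1) / m := Real.sq_sqrt (by positivity)
  set β : ℝ := (1 / q - α) / m with hβ
  have hab : α + m * β = 1 / q := by rw [hβ]; field_simp; ring
  have hab2 : 2 * α * β + m * β ^ 2 = -(1 / m) := by
    have h1 : m * (2 * α * β + m * β ^ 2) = (m * β) * (2 * α + m * β) := by ring
    have h2 : m * β = 1 / q - α := by linarith
    have h3 : (m : ℝ) * (2 * α * β + m * β ^ 2) = 1 / q ^ 2 - α ^ 2 := by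
      rw [h1, h2]; ring
    rw [hq2, hα2] at h3
    have h4 : (m : ℝ) * (2 * α * β + m * β ^ 2) = -1 := by
      rw [h3]; field_simp; ring
    field_simp
    linarith
  let s : Option (Fin m) → EuclideanSpace ℝ (Fin m) := fun k => match k with
    | none => WithLp.toLp 2 fun _ => -(1 / q)
    | some i => WithLp.toLp 2 fun j => (if j = i then α else 0) + β
  have hin : ∀ (u : EuclideanSpace ℝ (Fin m)) (k : Option (Fin m)),
      ⟪u, s k⟫_ℝ = match k with
        | none => -(1 / q) * ∑ j, u j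
        | some i => α * u i + β * ∑ j, u j := by
    intro u k
    rw [PiLp.inner_apply]
    rcases k with _ | i
    · simp only [s, RCLike.inner_apply, conj_trivial]
      rw [← Finset.mul_sum]
    · simp only [s, RCLike.inner_apply, conj_trivial, add_mul, ite_mul, zero_mul]
      rw [Finset.sum_add_distrib, Finset.sum_ite_eq' Finset.univ i, if_pos (Finset.mem_univ i),
        ← Finset.mul_sum]
  have hnorm : ∀ k, ‖s k‖ = 1 := by
    intro k
    have h1 : ‖s k‖ ^ 2 = 1 := by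
      rw [← real_inner_self_eq_norm_sq, hin]
      rcases k with _ | i
      · simp only [s, Finset.sum_const, Finset.card_univ, Fintype.card_fin, nsmul_eq_mul]
        rw [← hq2]; field_simp
      · simp only [s, Finset.sum_add_distrib, Finset.sum_const, Finset.card_univ,
          Fintype.card_fin, nsmul_eq_mul, Finset.sum_ite_eq' Finset.univ i, Finset.mem_univ,
          if_true]
        have : α * (α + β) + β * (α + m * β) = α ^ 2 + (2 * α * β + m * β ^ 2) := by ring
        rw [this, hab2, hα2]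
        field_simp
        ring
    have h2 := norm_nonneg (s k)
    nlinarith
  refine ⟨Finset.univ.image s, ?_, ?_, ?_⟩
  · exact Finset.card_image_le.trans (by simp)
  · intro t ht
    obtain ⟨k, -, rfl⟩ := Finset.mem_image.1 ht
    exact hnorm k
  intro u hu
  by_contra hcon
  push Not at hcon
  have hlt : ∀ k, ⟪u, s k⟫_ℝ < 1 / m := fun k =>
    hcon (s k) (Finset.mem_image_of_mem _ (Finset.mem_univ k))
  have hge : ∀ k, -1 ≤ ⟪u, s k⟫_ℝ := by
    intro k
    have := abs_real_inner_le_norm u (s k)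
    rw [hu, hnorm k] at this
    have h2 := neg_abs_le ⟪u, s k⟫_ℝ
    linarith
  have hs1 : ∑ k, ⟪u, s k⟫_ℝ = 0 := by
    rw [Fintype.sum_option]
    simp only [hin]
    rw [Finset.sum_add_distrib, ← Finset.mul_sum, Finset.sum_const, Finset.card_univ,
      Fintype.card_fin, nsmul_eq_mul]
    have : -(1 / q) * ∑ j, u j + (α * ∑ i, u i + m * (β * ∑ j, u j)) =
        (α + m * β - 1 / q) * ∑ j, u j := by ring
    rw [this, hab]; ring
  have hu2 : ∑ j, u j ^ 2 = 1 := by
    have := EuclideanSpace.real_norm_sq_eq u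
    rw [hu] at this
    linarith
  have hs2 : ∑ k, ⟪u, s k⟫_ℝ ^ 2 = (m + 1) / m := by
    rw [Fintype.sum_option]
    simp only [hin]
    have e1 : ∀ i, (α * u i + β * ∑ j, u j) ^ 2 = α ^ 2 * u i ^ 2 +
        (2 * α * β * ∑ j, u j) * u i + β ^ 2 * (∑ j, u j) ^ 2 := fun i => by ring
    rw [Finset.sum_congr rfl fun i _ => e1 i, Finset.sum_add_distrib, Finset.sum_add_distrib,
      ← Finset.mul_sum, ← Finset.mul_sum, hu2, Finset.sum_const, Finset.card_univ,
      Fintype.card_fin, nsmul_eq_mul]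
    have e2 : (-(1 / q) * ∑ j, u j) ^ 2 + (α ^ 2 * 1 + 2 * α * β * (∑ j, u j) * ∑ i, u i +
        m * (β ^ 2 * (∑ j, u j) ^ 2)) =
        α ^ 2 + (1 / q ^ 2 + (2 * α * β + m * β ^ 2)) * (∑ j, u j) ^ 2 := by ring
    rw [e2, hab2, hq2, hα2]; ring
  have hs3 : ∑ k : Option (Fin m), (1 / (m : ℝ) - ⟪u, s k⟫_ℝ) * (⟪u, s k⟫_ℝ + 1) = 0 := by
    have e1 : ∀ k : Option (Fin m), (1 / (m : ℝ) - ⟪u, s k⟫_ℝ) * (⟪u, s k⟫_ℝ + 1) =
        1 / m + (1 / m - 1) * ⟪u, s k⟫_ℝ - ⟪u, s k⟫_ℝ ^ 2 := fun k => by ring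
    rw [Finset.sum_congr rfl fun k _ => e1 k, Finset.sum_sub_distrib, Finset.sum_add_distrib,
      ← Finset.mul_sum, hs1, hs2, Finset.sum_const, Finset.card_univ, Fintype.card_option,
      Fintype.card_fin, nsmul_eq_mul]
    push_cast
    field_simp
    ring
  have hs4 := (Finset.sum_eq_zero_iff_of_nonneg (fun k _ =>
    mul_nonneg (sub_nonneg.2 (hlt k).le) (by linarith [hge k]))).1 hs3
  have hs5 : ∀ k, ⟪u, s k⟫_ℝ = -1 := by
    intro k
    rcases mul_eq_zero.1 (hs4 k (Finset.mem_univ k)) with h | h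
    · exact absurd h (sub_pos.2 (hlt k)).ne'
    · linarith
  rw [Finset.sum_congr rfl fun k _ => hs5 k, Finset.sum_const, Finset.card_univ,
    Fintype.card_option, Fintype.card_fin, nsmul_eq_mul] at hs1
  push_cast at hs1
  nlinarith

end Pool.Agent.H765R3.Had.Grp
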