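import Mathlib
import Pool.Agent.H765R3.Had.Grp

set_option autoImplicit false

open Set Filter Topology

open scoped InnerProductSpace

namespace Pool.Agent.H765R3.Had.Ill

theorem angle' {V : Type*} [NormedAddCommGroup V] [InnerProductSpace ℝ V] {t u x : V}
    (ht : ‖t‖ = 1) (hu : ‖u‖ = 1) (hx : ‖x‖ = 1) {a c : ℝ} (ha : 0 ≤ a) (hc : 0 ≤ c)
    (h1 : a ≤ ⟪u, t⟫_ℝ) (h2 : c ≤ ⟪u, x⟫_ℝ) :
    a * c - √(1 - a ^ 2) * √(1 - c ^ 2) ≤ ⟪t, x⟫_ℝ := by
  set α := ⟪u, t⟫_ℝ with hα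
  set β := ⟪u, x⟫_ℝ with hβ
  have e0 : ⟪u, u⟫_ℝ = 1 := by rw [real_inner_self_eq_norm_sq, hu]; norm_num
  have et : ⟪t, t⟫_ℝ = 1 := by rw [real_inner_self_eq_norm_sq, ht]; norm_num
  have ex : ⟪x, x⟫_ℝ = 1 := by rw [real_inner_self_eq_norm_sq, hx]; norm_num
  have e1 : ⟪t - α • u, x - β • u⟫_ℝ = ⟪t, x⟫_ℝ - α * β := by
    rw [inner_sub_left, inner_sub_right, inner_sub_right, inner_smul_left, inner_smul_left,
      inner_smul_right, inner_smul_right, e0, real_inner_comm u t]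
    simp only [conj_trivial, ← hα, ← hβ]
    ring
  have e2 : ‖t - α • u‖ ^ 2 = 1 - α ^ 2 := by
    rw [← real_inner_self_eq_norm_sq, inner_sub_left, inner_sub_right, inner_sub_right,
      inner_smul_left, inner_smul_left, inner_smul_right, inner_smul_right, e0, et,
      real_inner_comm u t]
    simp only [conj_trivial, ← hα]
    ring
  have e3 : ‖x - β • u‖ ^ 2 = 1 - β ^ 2 := by
    rw [← real_inner_self_eq_norm_sq, inner_sub_left, inner_sub_right, inner_sub_right,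
      inner_smul_left, inner_smul_left, inner_smul_right, inner_smul_right, e0, ex,
      real_inner_comm u x]
    simp only [conj_trivial, ← hβ]
    ring
  have h3 : α * β - ⟪t, x⟫_ℝ ≤ ‖t - α • u‖ * ‖x - β • u‖ := by
    have := abs_real_inner_le_norm (t - α • u) (x - β • u)
    rw [e1] at this
    have h4 := neg_abs_le (⟪t, x⟫_ℝ - α * β)
    linarith
  have h4 : ‖t - α • u‖ ≤ √(1 - a ^ 2) := by
    refine Real.le_sqrt_of_sq_le ?_
    rw [e2]
    have : a ^ 2 ≤ α ^ 2 := by gcongr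
    linarith
  have h5 : ‖x - β • u‖ ≤ √(1 - c ^ 2) := by
    refine Real.le_sqrt_of_sq_le ?_
    rw [e3]
    have : c ^ 2 ≤ β ^ 2 := by gcongr
    linarith
  have h6 : ‖t - α • u‖ * ‖x - β • u‖ ≤ √(1 - a ^ 2) * √(1 - c ^ 2) := by gcongr
  have hα0 : 0 ≤ α := ha.trans h1
  have h7 : a * c ≤ α * β := by gcongr
  linarith

theorem normal {V : Type*} [NormedAddCommGroup V] [InnerProductSpace ℝ V] [CompleteSpace V]
    {K : Set V} (hK : Convex ℝ K) (h0 : (interior K).Nonempty) {x v : V} (hx : x ∈ K)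
    (hno : ∀ t : ℝ, 0 < t → x + t • v ∉ interior K) :
    ∃ n : V, n ≠ 0 ∧ (∀ y ∈ K, ⟪n, y⟫_ℝ ≤ ⟪n, x⟫_ℝ) ∧ 0 ≤ ⟪n, v⟫_ℝ := by
  set C : Set V := {y | ∃ t : ℝ, 0 < t ∧ y = x + t • v} with hC
  have hCc : Convex ℝ C := by
    rintro y ⟨s, hs, rfl⟩ z ⟨t, ht, rfl⟩ a b ha hb hab
    refine ⟨a * s + b * t, ?_, ?_⟩
    · rcases ha.lt_or_eq with h | h
      · have := mul_pos h hs
        have := mul_nonneg hb ht.le
        linarith
      · have hb1 : b = 1 := by linarith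
        rw [← h, hb1]; linarith
    · have : x = a • x + b • x := by rw [← add_smul, hab, one_smul]
      rw [smul_add, smul_add, smul_smul, smul_smul, add_smul]
      nth_rewrite 3 [this]
      abel
  have hdis : Disjoint (interior K) C := by
    rw [Set.disjoint_left]
    rintro y hy ⟨t, ht, rfl⟩
    exact hno t ht hy
  obtain ⟨f, u, hf1, hf2⟩ := geometric_hahn_banach_open hK.interior isOpen_interior hCc hdis
  have hKu : ∀ y ∈ K, f y ≤ u := by
    intro y hy
    have h1 : y ∈ closure (interior K) := by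
      rw [hK.closure_interior_eq_closure_of_nonempty_interior h0]
      exact subset_closure hy
    have h2 : closure (interior K) ⊆ {y | f y ≤ u} :=
      closure_minimal (fun a ha => (hf1 a ha).le) (isClosed_le f.continuous continuous_const)
    exact h2 h1
  have hCu : ∀ t : ℝ, 0 < t → u ≤ f x + t * f v := by
    intro t ht
    have := hf2 (x + t • v) ⟨t, ht, rfl⟩
    simpa using this
  have hux : u ≤ f x := by
    by_contra hcon
    push Not at hcon
    have he : 0 < u - f x := by linarith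
    have hq : 0 < 2 * (|f v| + 1) := by positivity
    have h1 := hCu ((u - f x) / (2 * (|f v| + 1))) (by positivity)
    have h2 : (u - f x) / (2 * (|f v| + 1)) * f v ≤ (u - f x) / (2 * (|f v| + 1)) *
        (|f v| + 1) := by
      have := le_abs_self (f v)
      gcongr
      linarith
    have h3 : (u - f x) / (2 * (|f v| + 1)) * (|f v| + 1) = (u - f x) / 2 := by
      field_simp
    linarith
  have hin : ∀ y, ⟪(InnerProductSpace.toDual ℝ V).symm f, y⟫_ℝ = f y := fun y =>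
    InnerProductSpace.toDual_symm_apply
  refine ⟨(InnerProductSpace.toDual ℝ V).symm f, ?_, ?_, ?_⟩
  · intro h
    obtain ⟨a, ha⟩ := h0
    have h1 := hf1 a ha
    rw [← hin a, h, inner_zero_left] at h1
    rw [← hin x, h, inner_zero_left] at hux
    linarith
  · intro y hy
    rw [hin, hin]
    exact (hKu y hy).trans hux
  · rw [hin]
    have h1 := hCu 1 one_pos
    have h2 := hKu x hx
    linarith

theorem illuminate (r : ℕ) (m : Fin (r + 1) → ℕ) (hm : ∀ i, 1 ≤ m i) (c : Fin (r + 1) → ℝ)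
    (hc : ∀ i, √(1 - 1 / (m i : ℝ) ^ 2) < c i)
    (Γ : ∀ i, Set (EuclideanSpace ℝ (Fin (m i)) ≃ₗᵢ[ℝ] EuclideanSpace ℝ (Fin (m i))))
    (hΓ : ∀ i, ∀ u x : EuclideanSpace ℝ (Fin (m i)), ‖u‖ = 1 → ‖x‖ = 1 →
      ∃ g ∈ Γ i, c i ≤ ⟪u, g x⟫_ℝ)
    (K : Set (PiLp 2 fun i => EuclideanSpace ℝ (Fin (m i)))) (hK : Convex ℝ K)
    (hKc : IsCompact K) (h0 : 0 ∈ interior K)
    (hinv : ∀ i, ∀ g ∈ Γ i, ∀ x ∈ K, ∀ y : PiLp 2 fun i => EuclideanSpace ℝ (Fin (m i)),
      y i = g (x i) → (∀ j, j ≠ i → y j = x j) → y ∈ K) :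
    ∃ L : Finset (PiLp 2 fun i => EuclideanSpace ℝ (Fin (m i))),
      L.card ≤ (m 0 + 1) * ∏ i : Fin r, (m i.succ + 2) ∧
      ∀ x ∈ frontier K, ∃ v ∈ L, ∃ t : ℝ, 0 < t ∧ x + t • v ∈ interior K := by
  classical
  choose D hDc hD1 hD using fun i => Pool.Agent.H765R3.Had.Grp.simplex_dirs (m i) (hm i)
  -- constants
  obtain ⟨R, hR, hKR⟩ : ∃ R : ℝ, 0 < R ∧ ∀ x ∈ K, ‖x‖ ≤ R := by
    obtain ⟨R, hR⟩ := hKc.isBounded.exists_norm_le
    exact ⟨max R 1, by positivity, fun x hx => (hR x hx).trans (le_max_left _ _)⟩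
  obtain ⟨ρ, hρ, hball⟩ : ∃ ρ : ℝ, 0 < ρ ∧ ∀ x, ‖x‖ ≤ ρ → x ∈ K := by
    obtain ⟨ρ, hρ, hb⟩ := Metric.isOpen_iff.1 isOpen_interior 0 h0
    refine ⟨ρ / 2, by positivity, fun x hx => interior_subset (hb ?_)⟩
    rw [mem_ball_zero_iff]; linarith
  have hδ : ∀ i, 0 < 1 / (m i : ℝ) * c i - √(1 - (1 / (m i : ℝ)) ^ 2) * √(1 - c i ^ 2) := by
    intro i
    have hmi : (1 : ℝ) ≤ m i := by exact_mod_cast hm i
    have hmi0 : (0 : ℝ) < m i := by linarith
    have hc0 : 0 ≤ c i := (Real.sqrt_nonneg _).trans (hc i).le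
    have h1m : 0 ≤ 1 - 1 / (m i : ℝ) ^ 2 := by
      rw [sub_nonneg, div_le_one (by positivity)]
      nlinarith
    have h2 : 1 - 1 / (m i : ℝ) ^ 2 < c i ^ 2 := by
      rw [← Real.sqrt_lt' (lt_of_le_of_lt (Real.sqrt_nonneg _) (hc i))]
      exact hc i
    rw [sub_pos, ← Real.sqrt_mul (by rw [div_pow, one_pow]; exact h1m)]
    refine (Real.sqrt_lt' (by
      have := lt_of_le_of_lt (Real.sqrt_nonneg _) (hc i)
      positivity)).2 ?_
    have h3 : (1 - (1 / (m i : ℝ)) ^ 2) * (1 - c i ^ 2) =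
        (1 / (m i : ℝ) * c i) ^ 2 + ((1 - 1 / (m i : ℝ) ^ 2) - c i ^ 2) := by
      field_simp; ring
    linarith
  obtain ⟨δ, hδ0, hδi⟩ : ∃ δ : ℝ, 0 < δ ∧ ∀ i,
      δ ≤ 1 / (m i : ℝ) * c i - √(1 - (1 / (m i : ℝ)) ^ 2) * √(1 - c i ^ 2) := by
    obtain ⟨i, -, hi⟩ := Finset.exists_min_image (Finset.univ : Finset (Fin (r + 1)))
      (fun i => 1 / (m i : ℝ) * c i - √(1 - (1 / (m i : ℝ)) ^ 2) * √(1 - c i ^ 2))
      ⟨0, Finset.mem_univ _⟩
    exact ⟨_, hδ i, fun j => hi j (Finset.mem_univ _)⟩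
  set ε : ℝ := δ * ρ / (2 * R) with hε
  have hε0 : 0 < ε := by positivity
  set κ : Fin (r + 1) → ℝ := fun i => if i = 0 then ε else 1 with hκ
  have hκ0 : ∀ i, 0 < κ i := by
    intro i
    simp only [hκ]
    split_ifs
    · exact hε0
    · exact one_pos
  set W : ∀ i, Finset (EuclideanSpace ℝ (Fin (m i))) :=
    fun i => if i = 0 then D i else insert 0 (D i) with hW
  set e : (∀ i, EuclideanSpace ℝ (Fin (m i))) → PiLp 2 fun i => EuclideanSpace ℝ (Fin (m i)) :=
    fun t => WithLp.toLp 2 fun i => -(κ i • t i) with he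
  refine ⟨(Fintype.piFinset W).image e, ?_, ?_⟩
  · refine Finset.card_image_le.trans ?_
    rw [Fintype.card_piFinset, Fin.prod_univ_succ]
    refine Nat.mul_le_mul ?_ (Finset.prod_le_prod' fun i _ => ?_)
    · simp only [hW, if_true]
      exact hDc 0
    · simp only [hW, Fin.succ_ne_zero, if_false]
      exact (Finset.card_insert_le _ _).trans (Nat.succ_le_succ (hDc i.succ))
  intro x hx
  have hxK : x ∈ K := hKc.isClosed.frontier_subset hx
  have hT : ∀ i, ∃ t ∈ W i, (x i = 0 → i ≠ 0 → t = 0) ∧ ‖t‖ ≤ 1 ∧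
      (x i ≠ 0 → ‖t‖ = 1 ∧ 1 / (m i : ℝ) ≤ ⟪‖x i‖⁻¹ • x i, t⟫_ℝ) := by
    intro i
    by_cases hi : x i = 0
    · by_cases hi0 : i = 0
      · obtain ⟨t, ht, -⟩ := hD i (EuclideanSpace.single (⟨0, hm i⟩ : Fin (m i)) (1 : ℝ))
          (by simp)
        refine ⟨t, ?_, fun _ h => absurd hi0 h, (hD1 i t ht).le, fun h => absurd hi h⟩
        simp only [hW, if_pos hi0]
        exact ht
      · refine ⟨0, ?_, fun _ _ => rfl, by simp, fun h => absurd hi h⟩
        simp only [hW, if_neg hi0]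
        exact Finset.mem_insert_self _ _
    · obtain ⟨t, ht, h⟩ := hD i (‖x i‖⁻¹ • x i) (by
        rw [norm_smul, norm_inv, norm_norm, inv_mul_cancel₀ (norm_ne_zero_iff.2 hi)])
      refine ⟨t, ?_, fun h => absurd h hi, (hD1 i t ht).le, fun _ => ⟨hD1 i t ht, h⟩⟩
      simp only [hW]
      split_ifs
      · exact ht
      · exact Finset.mem_insert_of_mem ht
  choose t htW ht0 htn htD using hT
  by_contra hcon
  push Not at hcon
  obtain ⟨n, hn0, hmax, hnv⟩ := normal hK ⟨0, h0⟩ (v := e t) hxK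
    (hcon (e t) (Finset.mem_image_of_mem _ (Fintype.mem_piFinset.2 htW)))
  have hnn : 0 < ‖n‖ := norm_pos_iff.2 hn0
  have hnx : ρ * ‖n‖ ≤ ⟪n, x⟫_ℝ := by
    have h1 := hmax ((ρ / ‖n‖) • n) (hball _ (by
      rw [norm_smul, Real.norm_eq_abs, abs_of_pos (by positivity)]
      exact (div_mul_cancel₀ _ hnn.ne').le))
    rw [inner_smul_right, real_inner_self_eq_norm_sq] at h1
    have h2 : ρ / ‖n‖ * ‖n‖ ^ 2 = ρ * ‖n‖ := by field_simp
    linarith
  have key : ∀ i, x i ≠ 0 → δ * ‖n i‖ ≤ ⟪n i, t i⟫_ℝ := by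
    intro i hxi
    by_cases hni : n i = 0
    · rw [hni, norm_zero, inner_zero_left, mul_zero]
    have hnu : 0 < ‖n i‖ := norm_pos_iff.2 hni
    have hnx' : 0 < ‖x i‖ := norm_pos_iff.2 hxi
    have hu1 : ‖‖n i‖⁻¹ • n i‖ = 1 := by
      rw [norm_smul, norm_inv, norm_norm, inv_mul_cancel₀ hnu.ne']
    have hx1 : ‖‖x i‖⁻¹ • x i‖ = 1 := by
      rw [norm_smul, norm_inv, norm_norm, inv_mul_cancel₀ hnx'.ne']
    obtain ⟨g, hg, hgb⟩ := hΓ i _ _ hu1 hx1
    have hy : ⟪n i, g (x i)⟫_ℝ ≤ ⟪n i, x i⟫_ℝ := by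
      have hyK : (WithLp.toLp 2 (Function.update x.ofLp i (g (x i))) :
          PiLp 2 fun i => EuclideanSpace ℝ (Fin (m i))) ∈ K :=
        hinv i g hg x hxK _ (by simp) (fun j hj => by simp [Function.update_of_ne hj])
      have h1 := hmax _ hyK
      rw [PiLp.inner_apply, PiLp.inner_apply, ← Finset.add_sum_erase _ _ (Finset.mem_univ i),
        ← Finset.add_sum_erase Finset.univ (fun j => ⟪n j, x j⟫_ℝ) (Finset.mem_univ i)] at h1
      have h2 : ∑ j ∈ Finset.univ.erase i, ⟪n j, (WithLp.toLp 2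
          (Function.update x.ofLp i (g (x i))) :
          PiLp 2 fun i => EuclideanSpace ℝ (Fin (m i))) j⟫_ℝ =
          ∑ j ∈ Finset.univ.erase i, ⟪n j, x j⟫_ℝ := by
        refine Finset.sum_congr rfl fun j hj => ?_
        have hj' : j ≠ i := (Finset.mem_erase.1 hj).1
        simp [Function.update_of_ne hj']
      rw [h2] at h1
      have h3 := le_of_add_le_add_right h1
      simpa using h3
    have hgt : c i ≤ ⟪‖x i‖⁻¹ • x i, ‖n i‖⁻¹ • n i⟫_ℝ := by
      rw [real_inner_comm]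
      refine hgb.trans ?_
      rw [map_smul, inner_smul_left, inner_smul_right, inner_smul_left, inner_smul_right]
      simp only [conj_trivial]
      gcongr
    have hc0 : 0 ≤ c i := (Real.sqrt_nonneg _).trans (hc i).le
    have h4 := angle' (htD i hxi).1 hx1 hu1 (a := 1 / (m i : ℝ)) (by positivity) hc0
      (htD i hxi).2 hgt
    rw [inner_smul_right, real_inner_comm] at h4
    have h5 := (hδi i).trans h4
    have h6 : δ * ‖n i‖ ≤ ‖n i‖⁻¹ * ⟪n i, t i⟫_ℝ * ‖n i‖ := by gcongr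
    have h7 : ‖n i‖⁻¹ * ⟪n i, t i⟫_ℝ * ‖n i‖ = ⟪n i, t i⟫_ℝ := by field_simp
    linarith
  have hsum : ⟪n, e t⟫_ℝ = -∑ i, κ i * ⟪n i, t i⟫_ℝ := by
    rw [PiLp.inner_apply, ← Finset.sum_neg_distrib]
    refine Finset.sum_congr rfl fun i _ => ?_
    simp only [he, inner_neg_right, inner_smul_right]
  have hpos : 0 < ∑ i, κ i * ⟪n i, t i⟫_ℝ := by
    by_cases hx0 : x 0 = 0
    · have hterm : ∀ i, (δ / R) * ⟪n i, x i⟫_ℝ - (if i = 0 then ε * ‖n‖ else 0) ≤
          κ i * ⟪n i, t i⟫_ℝ := by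
        intro i
        by_cases hi0 : i = 0
        · subst hi0
          simp only [hκ, if_true, hx0, inner_zero_right, mul_zero, zero_sub]
          have h1 := abs_real_inner_le_norm (n 0) (t 0)
          have h2 := neg_abs_le ⟪n 0, t 0⟫_ℝ
          have h3 : ‖n 0‖ * ‖t 0‖ ≤ ‖n‖ * 1 :=
            mul_le_mul (PiLp.norm_apply_le n 0) (htn 0) (norm_nonneg _) (norm_nonneg _)
          have h4 : -‖n‖ ≤ ⟪n 0, t 0⟫_ℝ := by linarith
          have h5 : ε * (-‖n‖) ≤ ε * ⟪n 0, t 0⟫_ℝ := by gcongr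
          linarith
        · simp only [hκ, if_neg hi0, one_mul, sub_zero]
          by_cases hxi : x i = 0
          · simp [hxi, ht0 i hxi hi0]
          · refine le_trans ?_ (key i hxi)
            have h1 := real_inner_le_norm (n i) (x i)
            have h2 : ‖n i‖ * ‖x i‖ ≤ ‖n i‖ * R := by
              gcongr
              exact (PiLp.norm_apply_le x i).trans (hKR x hxK)
            have h3 : δ / R * ⟪n i, x i⟫_ℝ ≤ δ / R * (‖n i‖ * R) := by
              gcongr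
              linarith
            have h4 : δ / R * (‖n i‖ * R) = δ * ‖n i‖ := by field_simp
            linarith
      have h1 := Finset.sum_le_sum fun i (_ : i ∈ Finset.univ) => hterm i
      rw [Finset.sum_sub_distrib, ← Finset.mul_sum, ← PiLp.inner_apply,
        Finset.sum_ite_eq' Finset.univ (0 : Fin (r + 1)), if_pos (Finset.mem_univ _)] at h1
      have h2 : δ / R * (ρ * ‖n‖) ≤ δ / R * ⟪n, x⟫_ℝ := by gcongr
      have h3 : δ / R * (ρ * ‖n‖) = 2 * ε * ‖n‖ := by rw [hε]; field_simp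
      have h4 : 0 < ε * ‖n‖ := by positivity
      linarith
    · have hex : ∃ i, n i ≠ 0 ∧ x i ≠ 0 := by
        by_contra hcon2
        push Not at hcon2
        have : ⟪n, x⟫_ℝ = 0 := by
          rw [PiLp.inner_apply]
          refine Finset.sum_eq_zero fun i _ => ?_
          by_cases hui : n i = 0
          · rw [hui, inner_zero_left]
          · rw [hcon2 i hui, inner_zero_right]
        have h2 : 0 < ρ * ‖n‖ := by positivity
        linarith
      obtain ⟨i, hni, hxi⟩ := hex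
      refine Finset.sum_pos' (fun j _ => ?_) ⟨i, Finset.mem_univ i, ?_⟩
      · refine mul_nonneg (hκ0 j).le ?_
        by_cases hxj : x j = 0
        · by_cases hj0 : j = 0
          · exact absurd (hj0 ▸ hxj) hx0
          · rw [ht0 j hxj hj0, inner_zero_right]
        · exact le_trans (by positivity) (key j hxj)
      · have h1 : 0 < ‖n i‖ := norm_pos_iff.2 hni
        exact mul_pos (hκ0 i) (lt_of_lt_of_le (by positivity) (key i hxi))
  rw [hsum] at hnv
  linarith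

end Pool.Agent.H765R3.Had.Ill
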