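import Mathlib

set_option autoImplicit false

open Set Filter Topology

namespace Pool.Agent.H765R3.Had

/-- From illuminating directions to translates. -/
theorem cover_of_dirs {V : Type*} [NormedAddCommGroup V] [NormedSpace ℝ V] {K : Set V}
    (hK : Convex ℝ K) (hKc : IsCompact K) (D : Finset V)
    (hD : ∀ z ∈ K, ∃ d ∈ D, ∃ ε : ℝ, 0 < ε ∧ z - ε • d ∈ interior K) :
    ∃ S : Finset V, S.card ≤ D.card ∧ K ⊆ ⋃ t ∈ S, (fun x => t + x) '' interior K := by
  classical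
  have hmon : ∀ z ∈ K, ∀ d : V, ∀ ε ε' : ℝ, 0 < ε' → ε' ≤ ε → z - ε • d ∈ interior K →
      z - ε' • d ∈ interior K := by
    intro z hz d ε ε' h0 hle h
    have hε : 0 < ε := h0.trans_le hle
    have h1 : 0 < ε' / ε := by positivity
    have h2 : ε' / ε ≤ 1 := by rw [div_le_one hε]; exact hle
    have h3 := hK.combo_interior_self_mem_interior h hz h1 (by linarith : 0 ≤ 1 - ε' / ε)
      (by ring : ε' / ε + (1 - ε' / ε) = 1)
    have e : (ε' / ε) • (z - ε • d) + (1 - ε' / ε) • z = z - ε' • d := by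
      have : (ε' / ε) • (ε • d) = ε' • d := by
        rw [smul_smul, div_mul_cancel₀ _ hε.ne']
      rw [smul_sub, this, sub_smul, one_smul]
      abel
    rwa [e] at h3
  let U : ℕ → Set V := fun n => ⋃ d ∈ D, {z | z - ((1 : ℝ) / (n + 1)) • d ∈ interior K}
  have hUo : ∀ n, IsOpen (U n) := by
    intro n
    refine isOpen_biUnion fun d _ => ?_
    exact isOpen_interior.preimage (by fun_prop)
  have hcov : K ⊆ ⋃ n, U n := by
    intro z hz
    obtain ⟨d, hd, ε, hε, h⟩ := hD z hz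
    obtain ⟨n, hn⟩ := exists_nat_one_div_lt hε
    refine mem_iUnion.2 ⟨n, mem_iUnion₂.2 ⟨d, hd, ?_⟩⟩
    exact hmon z hz d ε _ (by positivity) hn.le h
  obtain ⟨t, ht⟩ := hKc.elim_finite_subcover U hUo hcov
  set N : ℕ := t.sup id with hN
  have hKN : K ⊆ U N := by
    intro z hz
    obtain ⟨n, hn, h⟩ := mem_iUnion₂.1 (ht hz)
    obtain ⟨d, hd, h'⟩ := mem_iUnion₂.1 h
    refine mem_iUnion₂.2 ⟨d, hd, ?_⟩
    have hnN : n ≤ N := Finset.le_sup (f := id) hn
    refine hmon z hz d _ _ (by positivity) ?_ h'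
    have : (n : ℝ) ≤ N := by exact_mod_cast hnN
    gcongr
  refine ⟨D.image (fun d => ((1 : ℝ) / (N + 1)) • d), Finset.card_image_le, fun z hz => ?_⟩
  obtain ⟨d, hd, h⟩ := mem_iUnion₂.1 (hKN hz)
  refine mem_iUnion₂.2 ⟨_, Finset.mem_image_of_mem _ hd, ?_⟩
  exact ⟨_, h, by simp⟩

/-- A cover of `L` by translates of its interior gives decreasing directions for the gauge. -/
theorem block {V : Type*} [NormedAddCommGroup V] [NormedSpace ℝ V] {L : Set V}
    (hL : Convex ℝ L) (hLc : IsCompact L) (h0 : (0 : V) ∈ interior L) {T : Finset V}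
    (hT : L ⊆ ⋃ t ∈ T, (fun x => t + x) '' interior L) (M : ℝ) :
    ∃ R : ℝ, ∀ y : V, y ≠ 0 → gauge L y ≤ M → ∃ t ∈ T, ∃ ε₀ : ℝ, 0 < ε₀ ∧
      ∀ ε, 0 ≤ ε → ε ≤ ε₀ → gauge L (y - ε • (R • t)) ≤ (1 - ε) * gauge L y := by
  classical
  have hn : L ∈ 𝓝 (0 : V) := mem_interior_iff_mem_nhds.1 h0
  have hcont : Continuous (gauge L) := continuous_gauge hL hn
  have habs : Absorbent ℝ L := absorbent_nhds_zero hn
  have hbdd : Bornology.IsVonNBounded ℝ L := hLc.isVonNBounded ℝ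
  let U : ℕ → Set V := fun n => ⋃ t ∈ T, {l | gauge L (l - t) < 1 - (1 : ℝ) / (n + 1)}
  have hUo : ∀ n, IsOpen (U n) := by
    intro n
    refine isOpen_biUnion fun d _ => ?_
    exact isOpen_lt (by fun_prop) continuous_const
  have hcov : L ⊆ ⋃ n, U n := by
    intro l hl
    obtain ⟨t, ht, x, hx, hxl⟩ := mem_iUnion₂.1 (hT hl)
    have hx1 : gauge L (l - t) < 1 := by
      have : l - t = x := by rw [← hxl]; simp
      rw [this]
      exact (gauge_lt_one_iff_mem_interior hL hn).2 hx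
    obtain ⟨n, hn'⟩ := exists_nat_one_div_lt (sub_pos.2 hx1)
    refine mem_iUnion.2 ⟨n, mem_iUnion₂.2 ⟨t, ht, ?_⟩⟩
    show gauge L (l - t) < 1 - (1 : ℝ) / (n + 1)
    linarith
  have hUm : Monotone U := by
    intro n m hnm l hl
    obtain ⟨t, ht, h⟩ := mem_iUnion₂.1 hl
    refine mem_iUnion₂.2 ⟨t, ht, ?_⟩
    have h' : gauge L (l - t) < 1 - (1 : ℝ) / (n + 1) := h
    show gauge L (l - t) < 1 - (1 : ℝ) / (m + 1)
    have h2 : (n : ℝ) ≤ m := by exact_mod_cast hnm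
    have h3 : (1 : ℝ) / (m + 1) ≤ 1 / (n + 1) := by gcongr
    linarith
  obtain ⟨N, hN⟩ := hLc.elim_directed_cover U hUo hcov hUm.directed_le
  set c : ℝ := (1 : ℝ) / (N + 1) with hc
  have hc0 : 0 < c := by positivity
  refine ⟨(|M| + 1) / c, fun y hy hyM => ?_⟩
  set ρ := gauge L y with hρ
  have hρ0 : 0 < ρ := by
    rw [hρ]; exact (gauge_pos habs hbdd).2 hy
  have hρM : ρ ≤ |M| + 1 := by linarith [le_abs_self M]
  set l := ρ⁻¹ • y with hl
  have hgl : gauge L l = 1 := by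
    rw [hl, gauge_smul_of_nonneg (by positivity), ← hρ, smul_eq_mul, inv_mul_cancel₀ hρ0.ne']
  have hlL : l ∈ L := by
    have h1 : l ∈ closure L := (gauge_le_one_iff_mem_closure hL hn).1 hgl.le
    rwa [hLc.isClosed.closure_eq] at h1
  obtain ⟨t, ht, hlt⟩ := mem_iUnion₂.1 (hN hlL)
  have hlt' : gauge L (l - t) < 1 - c := hlt
  set R := (|M| + 1) / c with hR
  have hR0 : 0 < R := by positivity
  refine ⟨t, ht, ρ / R, by positivity, fun ε hε hε' => ?_⟩
  set s := ε * R / ρ with hs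
  have hs0 : 0 ≤ s := by positivity
  have hs1 : s ≤ 1 := by
    rw [hs, div_le_one hρ0]
    calc ε * R ≤ ρ / R * R := by gcongr
      _ = ρ := by field_simp
  have e1 : y - ε • (R • t) = ρ • ((1 - s) • l + s • (l - t)) := by
    have e2 : (1 - s) • l + s • (l - t) = l - s • t := by
      rw [sub_smul, one_smul, smul_sub]; abel
    have e3 : ρ • l = y := by rw [hl, smul_smul, mul_inv_cancel₀ hρ0.ne', one_smul]
    have e4 : ρ • (s • t) = ε • (R • t) := by
      rw [smul_smul, smul_smul, hs]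
      congr 1
      field_simp
    rw [e2, smul_sub, e3, e4]
  rw [e1, gauge_smul_of_nonneg hρ0.le, smul_eq_mul]
  have h2 : gauge L ((1 - s) • l + s • (l - t)) ≤ (1 - s) * 1 + s * (1 - c) := by
    refine (gauge_add_le hL habs _ _).trans ?_
    rw [gauge_smul_of_nonneg (by linarith), gauge_smul_of_nonneg hs0, hgl, smul_eq_mul, smul_eq_mul]
    gcongr
  have h3 : ρ * ((1 - s) * 1 + s * (1 - c)) = ρ - ε * (R * c) := by
    rw [hs]; field_simp; ring
  have h4 : R * c = |M| + 1 := by rw [hR]; field_simp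
  calc ρ * gauge L ((1 - s) • l + s • (l - t)) ≤ ρ * ((1 - s) * 1 + s * (1 - c)) := by gcongr
    _ = ρ - ε * (|M| + 1) := by rw [h3, h4]
    _ ≤ (1 - ε) * ρ := by nlinarith

theorem exists_small {V : Type*} [NormedAddCommGroup V] [NormedSpace ℝ V] {U : Set V}
    (hU : IsOpen U) {z : V} (hz : z ∈ U) (v : V) : ∃ κ : ℝ, 0 < κ ∧ z + κ • v ∈ U := by
  have hO : IsOpen {κ : ℝ | z + κ • v ∈ U} := hU.preimage (by fun_prop)
  obtain ⟨δ, hδ, hb⟩ := Metric.isOpen_iff.1 hO 0 (by simpa using hz)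
  refine ⟨δ / 2, by positivity, hb ?_⟩
  rw [Metric.mem_ball, Real.dist_eq, sub_zero, abs_of_pos (by positivity)]
  linarith

section Sum

variable {ι : Type*} [Fintype ι] {F : Type*} [NormedAddCommGroup F] [NormedSpace ℝ F]
  {E : ι → Type*} [∀ i, NormedAddCommGroup (E i)] [∀ i, NormedSpace ℝ (E i)]
  {K : Set (F × (∀ i, E i))} {L : ∀ i, Set (E i)}

theorem strict_dom (hL : ∀ i, Convex ℝ (L i)) (hL0 : ∀ i, (0 : E i) ∈ interior (L i))
    (hmono : ∀ x y y', (x, y) ∈ K → (∀ i, gauge (L i) (y' i) ≤ gauge (L i) (y i)) → (x, y') ∈ K)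
    {x : F} {y y' : ∀ i, E i} (h : (x, y) ∈ interior K)
    (hlt : ∀ i, gauge (L i) (y' i) < gauge (L i) (y i)) : (x, y') ∈ interior K := by
  have hcont : ∀ i, Continuous (gauge (L i)) := fun i =>
    continuous_gauge (hL i) (mem_interior_iff_mem_nhds.1 (hL0 i))
  rw [mem_interior]
  refine ⟨{p | (p.1, y) ∈ interior K} ∩ {p | ∀ i, gauge (L i) (p.2 i) < gauge (L i) (y i)},
    ?_, ?_, h, hlt⟩
  · rintro ⟨p, q⟩ ⟨h1, h2⟩
    exact hmono p y q (interior_subset h1) fun i => (h2 i).le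
  · refine IsOpen.inter (isOpen_interior.preimage (by fun_prop)) ?_
    rw [Set.ofPred_forall]
    refine isOpen_iInter_of_finite fun i => ?_
    exact isOpen_lt ((hcont i).comp (by fun_prop)) continuous_const

variable [∀ i, Nontrivial (E i)]

theorem zero_interior (hL : ∀ i, Convex ℝ (L i)) (hLc : ∀ i, IsCompact (L i))
    (hL0 : ∀ i, (0 : E i) ∈ interior (L i))
    (hK : Convex ℝ K) (hKi : (interior K).Nonempty)
    (hmono : ∀ x y y', (x, y) ∈ K → (∀ i, gauge (L i) (y' i) ≤ gauge (L i) (y i)) → (x, y') ∈ K)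
    {x : F} (hx : x ∈ interior {x | (x, (0 : ∀ i, E i)) ∈ K}) :
    (x, (0 : ∀ i, E i)) ∈ interior K := by
  classical
  have hpos : ∀ i, ∀ v : E i, v ≠ 0 → 0 < gauge (L i) v := fun i v hv =>
    (gauge_pos (absorbent_nhds_zero (mem_interior_iff_mem_nhds.1 (hL0 i)))
      ((hLc i).isVonNBounded ℝ)).2 hv
  choose e he using fun i => exists_ne (0 : E i)
  obtain ⟨⟨c, h⟩, hch⟩ := hKi
  obtain ⟨κ, hκ, h1⟩ := exists_small isOpen_interior hch
    ((0, fun i => if h i = 0 then e i else h i) : F × (∀ i, E i))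
  have h2 : (c, (0 : ∀ i, E i)) ∈ interior K := by
    have e1 : ((c, h) + κ • ((0, fun i => if h i = 0 then e i else h i) : F × (∀ i, E i))) =
        (c, fun i => h i + κ • (if h i = 0 then e i else h i)) := by
      ext <;> simp
    rw [e1] at h1
    refine strict_dom hL hL0 hmono h1 fun i => ?_
    rw [Pi.zero_apply, gauge_zero]
    refine hpos i _ ?_
    by_cases hi : h i = 0
    · rw [if_pos hi, hi, zero_add]
      exact smul_ne_zero hκ.ne' (he i)
    · rw [if_neg hi]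
      have : h i + κ • h i = (1 + κ) • h i := by rw [add_smul, one_smul]
      rw [this]
      exact smul_ne_zero (by positivity) hi
  obtain ⟨δ, hδ, h3⟩ := exists_small isOpen_interior hx (x - c)
  have h4 : (x + δ • (x - c), (0 : ∀ i, E i)) ∈ K :=
    interior_subset (s := {x | (x, (0 : ∀ i, E i)) ∈ K}) h3
  have h5 := hK.combo_interior_self_mem_interior h2 h4 (a := δ / (1 + δ)) (b := 1 / (1 + δ))
    (by positivity) (by positivity) (by field_simp; ring)
  convert h5 using 1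
  ext
  · simp only [Prod.fst_add, Prod.smul_fst]
    have e3 : (δ / (1 + δ)) • c + (1 / (1 + δ)) • (x + δ • (x - c)) =
        (1 + δ)⁻¹ • ((1 + δ) • x) := by
      rw [div_eq_inv_mul, mul_smul, one_div, ← smul_add]
      congr 1
      rw [smul_sub, add_smul, one_smul]
      abel
    rw [e3, inv_smul_smul₀ (by positivity)]
  · simp

theorem point (hL : ∀ i, Convex ℝ (L i)) (hLc : ∀ i, IsCompact (L i))
    (hL0 : ∀ i, (0 : E i) ∈ interior (L i))
    (hK : Convex ℝ K) (hKi : (interior K).Nonempty)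
    (hmono : ∀ x y y', (x, y) ∈ K → (∀ i, gauge (L i) (y' i) ≤ gauge (L i) (y i)) → (x, y') ∈ K)
    {x b : F} {y w : ∀ i, E i} (hxy : (x, y) ∈ K)
    (hb : x - b ∈ interior {x | (x, (0 : ∀ i, E i)) ∈ K})
    (hw : ∀ᶠ ε in 𝓝[>] (0 : ℝ), ∀ i,
      gauge (L i) (y i - ε • w i) ≤ (1 - ε) * gauge (L i) (y i)) :
    ∃ ε : ℝ, 0 < ε ∧ (x, y) - ε • ((b, w) : F × (∀ i, E i)) ∈ interior K := by
  classical
  have hpos : ∀ i, ∀ v : E i, v ≠ 0 → 0 < gauge (L i) v := fun i v hv =>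
    (gauge_pos (absorbent_nhds_zero (mem_interior_iff_mem_nhds.1 (hL0 i)))
      ((hLc i).isVonNBounded ℝ)).2 hv
  choose e he using fun i => exists_ne (0 : E i)
  have h0 := zero_interior hL hLc hL0 hK hKi hmono hb
  obtain ⟨κ, hκ, h1⟩ := exists_small isOpen_interior h0
    ((0, fun i => if y i = 0 then e i else y i) : F × (∀ i, E i))
  obtain ⟨ε, hε, hε0, hε1⟩ := (hw.and (Ioo_mem_nhdsGT (zero_lt_one' ℝ))).exists
  refine ⟨ε, hε0, ?_⟩
  have h2 := hK.combo_interior_self_mem_interior h1 hxy hε0 (by linarith : 0 ≤ 1 - ε) (by ring)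
  have e1 : ε • ((x - b, (0 : ∀ i, E i)) +
        κ • ((0, fun i => if y i = 0 then e i else y i) : F × (∀ i, E i))) + (1 - ε) • (x, y) =
      (x - ε • b, fun i => (ε * κ) • (if y i = 0 then e i else y i) + (1 - ε) • y i) := by
    ext i
    · simp only [Prod.fst_add, Prod.smul_fst, smul_zero, add_zero]
      rw [smul_sub, sub_smul, one_smul]
      abel
    · simp [mul_smul]
  rw [e1] at h2
  have e2 : (x, y) - ε • ((b, w) : F × (∀ i, E i)) = (x - ε • b, fun i => y i - ε • w i) := by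
    ext <;> simp
  rw [e2]
  refine strict_dom hL hL0 hmono h2 fun i => ?_
  refine lt_of_le_of_lt (hε i) ?_
  by_cases hi : y i = 0
  · rw [if_pos hi, hi, gauge_zero, mul_zero, smul_zero, add_zero]
    exact hpos i _ (smul_ne_zero (by positivity) (he i))
  · rw [if_neg hi, ← add_smul, gauge_smul_of_nonneg (by nlinarith [mul_pos hε0 hκ]), smul_eq_mul]
    have := hpos i _ hi
    have h3 : 0 < ε * κ := by positivity
    nlinarith

theorem dirs (hL : ∀ i, Convex ℝ (L i)) (hLc : ∀ i, IsCompact (L i))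
    (hL0 : ∀ i, (0 : E i) ∈ interior (L i))
    (hK : Convex ℝ K) (hKc : IsCompact K) (hKi : (interior K).Nonempty)
    (hmono : ∀ x y y', (x, y) ∈ K → (∀ i, gauge (L i) (y' i) ≤ gauge (L i) (y i)) → (x, y') ∈ K)
    (T₀ : Finset F)
    (hT₀ : {x | (x, (0 : ∀ i, E i)) ∈ K} ⊆
      ⋃ t ∈ T₀, (fun x => t + x) '' interior {x | (x, (0 : ∀ i, E i)) ∈ K})
    (T : ∀ i, Finset (E i)) (hT : ∀ i, L i ⊆ ⋃ t ∈ T i, (fun x => t + x) '' interior (L i)) :
    ∃ W : ∀ i, Finset (E i), (∀ i, (W i).card ≤ (T i).card + 1 ∧ 0 ∈ W i) ∧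
      ∀ x y, (x, y) ∈ K → ∃ b ∈ T₀, x - b ∈ interior {x | (x, (0 : ∀ i, E i)) ∈ K} ∧
        ∃ w : ∀ i, E i, (∀ i, w i ∈ W i) ∧ (∀ i, y i ≠ 0 → w i ≠ 0) ∧
          ∃ ε : ℝ, 0 < ε ∧ (x, y) - ε • ((b, w) : F × (∀ i, E i)) ∈ interior K := by
  classical
  have hn : ∀ i, L i ∈ 𝓝 (0 : E i) := fun i => mem_interior_iff_mem_nhds.1 (hL0 i)
  have hcont : ∀ i, Continuous (gauge (L i)) := fun i => continuous_gauge (hL i) (hn i)
  have hpos : ∀ i, ∀ v : E i, v ≠ 0 → 0 < gauge (L i) v := fun i v hv =>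
    (gauge_pos (absorbent_nhds_zero (hn i)) ((hLc i).isVonNBounded ℝ)).2 hv
  have hM : ∀ i, ∃ M : ℝ, ∀ z ∈ K, gauge (L i) (z.2 i) ≤ M := by
    intro i
    obtain ⟨M, hM⟩ := hKc.bddAbove_image
      (f := fun z : F × (∀ i, E i) => gauge (L i) (z.2 i))
      ((hcont i).comp (by fun_prop)).continuousOn
    exact ⟨M, fun z hz => hM (mem_image_of_mem _ hz)⟩
  choose M hM using hM
  choose R hR using fun i => block (hL i) (hLc i) (hL0 i) (hT i) (M i)
  refine ⟨fun i => insert 0 ((T i).image fun t => R i • t), fun i => ⟨?_, ?_⟩, ?_⟩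
  · exact (Finset.card_insert_le _ _).trans (Nat.succ_le_succ Finset.card_image_le)
  · exact Finset.mem_insert_self _ _
  intro x y hxy
  have hx0 : (x, (0 : ∀ i, E i)) ∈ K := hmono x y 0 hxy fun i => by
    rw [Pi.zero_apply, gauge_zero]; exact gauge_nonneg _
  obtain ⟨b, hb, q, hq, hqx⟩ := mem_iUnion₂.1 (hT₀ hx0)
  have hxb : x - b = q := by rw [← hqx]; simp
  have hw : ∀ i, ∃ w : E i, w ∈ insert 0 ((T i).image fun t => R i • t) ∧ (y i ≠ 0 → w ≠ 0) ∧
      ∀ᶠ ε in 𝓝[>] (0 : ℝ), gauge (L i) (y i - ε • w) ≤ (1 - ε) * gauge (L i) (y i) := by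
    intro i
    by_cases hi : y i = 0
    · refine ⟨0, Finset.mem_insert_self _ _, fun h => absurd hi h, ?_⟩
      refine Eventually.of_forall fun ε => ?_
      rw [hi, smul_zero, sub_zero, gauge_zero, mul_zero]
    · obtain ⟨t, ht, ε₀, hε₀, h⟩ := hR i (y i) hi (hM i _ hxy)
      refine ⟨R i • t, Finset.mem_insert_of_mem (Finset.mem_image_of_mem _ ht), fun _ h0 => ?_, ?_⟩
      · have h1 := h ε₀ hε₀.le le_rfl
        rw [h0, smul_zero, sub_zero] at h1
        have := hpos i _ hi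
        nlinarith
      · filter_upwards [Ioo_mem_nhdsGT hε₀] with ε hε
        exact h ε hε.1.le hε.2.le
  choose w hwW hw0 hwe using hw
  refine ⟨b, hb, by rw [hxb]; exact hq, w, hwW, hw0, ?_⟩
  exact point hL hLc hL0 hK hKi hmono hxy (by rw [hxb]; exact hq) (eventually_all.2 hwe)

/-- **Covering numbers of unconditional sums.** -/
theorem cover (hL : ∀ i, Convex ℝ (L i)) (hLc : ∀ i, IsCompact (L i))
    (hL0 : ∀ i, (0 : E i) ∈ interior (L i))
    (hK : Convex ℝ K) (hKc : IsCompact K) (hKi : (interior K).Nonempty)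
    (hmono : ∀ x y y', (x, y) ∈ K → (∀ i, gauge (L i) (y' i) ≤ gauge (L i) (y i)) → (x, y') ∈ K)
    (T₀ : Finset F)
    (hT₀ : {x | (x, (0 : ∀ i, E i)) ∈ K} ⊆
      ⋃ t ∈ T₀, (fun x => t + x) '' interior {x | (x, (0 : ∀ i, E i)) ∈ K})
    (T : ∀ i, Finset (E i)) (hT : ∀ i, L i ⊆ ⋃ t ∈ T i, (fun x => t + x) '' interior (L i)) :
    ∃ S : Finset (F × (∀ i, E i)), S.card ≤ T₀.card * ∏ i, ((T i).card + 1) ∧
      K ⊆ ⋃ t ∈ S, (fun x => t + x) '' interior K := by
  classical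
  obtain ⟨W, hW, h⟩ := dirs hL hLc hL0 hK hKc hKi hmono T₀ hT₀ T hT
  obtain ⟨S, hS, hS'⟩ := cover_of_dirs hK hKc (T₀ ×ˢ Fintype.piFinset W) (by
    rintro ⟨x, y⟩ hxy
    obtain ⟨b, hb, -, w, hw, -, ε, hε, hz⟩ := h x y hxy
    exact ⟨(b, w), Finset.mk_mem_product hb (Fintype.mem_piFinset.2 hw), ε, hε, hz⟩)
  refine ⟨S, hS.trans ?_, hS'⟩
  rw [Finset.card_product, Fintype.card_piFinset]
  exact Nat.mul_le_mul_left _ (Finset.prod_le_prod' fun i _ => (hW i).1)

theorem cover' [Subsingleton F] [Nonempty ι] (hL : ∀ i, Convex ℝ (L i))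
    (hLc : ∀ i, IsCompact (L i))
    (hL0 : ∀ i, (0 : E i) ∈ interior (L i))
    (hK : Convex ℝ K) (hKc : IsCompact K) (hKi : (interior K).Nonempty)
    (hmono : ∀ x y y', (x, y) ∈ K → (∀ i, gauge (L i) (y' i) ≤ gauge (L i) (y i)) → (x, y') ∈ K)
    (T : ∀ i, Finset (E i)) (hT : ∀ i, L i ⊆ ⋃ t ∈ T i, (fun x => t + x) '' interior (L i)) :
    ∃ S : Finset (F × (∀ i, E i)), S.card ≤ ∏ i, ((T i).card + 1) - 1 ∧
      K ⊆ ⋃ t ∈ S, (fun x => t + x) '' interior K := by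
  classical
  obtain ⟨⟨c, h⟩, hch⟩ := id hKi
  have hBopen : {x | (x, (0 : ∀ i, E i)) ∈ K} = univ := by
    refine eq_univ_of_forall fun x => ?_
    have : x = c := Subsingleton.elim _ _
    rw [this]
    exact hmono c h 0 (interior_subset hch) fun i => by
      rw [Pi.zero_apply, gauge_zero]; exact gauge_nonneg _
  obtain ⟨W, hW, hd⟩ := dirs hL hLc hL0 hK hKc hKi hmono {0} (by
    rw [hBopen]; simp) T hT
  have hzero : ∀ x, (x, (0 : ∀ i, E i)) ∈ interior K := fun x =>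
    zero_interior hL hLc hL0 hK hKi hmono (by rw [hBopen]; simp)
  set D : Finset (F × (∀ i, E i)) := {0} ×ˢ (Fintype.piFinset W).erase 0 with hD
  have hDz : ∀ x y, (x, y) ∈ K → y ≠ 0 → ∃ d ∈ D, ∃ ε : ℝ, 0 < ε ∧ (x, y) - ε • d ∈ interior K := by
    intro x y hxy hy
    obtain ⟨b, hb, -, w, hw, hw0, ε, hε, hz⟩ := hd x y hxy
    refine ⟨(b, w), Finset.mk_mem_product hb (Finset.mem_erase.2 ⟨?_, Fintype.mem_piFinset.2 hw⟩),
      ε, hε, hz⟩
    intro h0
    refine hy (funext fun i => ?_)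
    by_contra hi
    exact hw0 i hi (by rw [h0]; rfl)
  have hDne : ∃ d, d ∈ D := by
    choose e he using fun i => exists_ne (0 : E i)
    obtain ⟨κ, hκ, h1⟩ := exists_small isOpen_interior (hzero c) ((0, e) : F × (∀ i, E i))
    have h2 : (c, κ • e) ∈ K := by
      have := interior_subset h1
      simpa using this
    have h3 : κ • e ≠ 0 := by
      obtain ⟨i⟩ := ‹Nonempty ι›
      intro h0
      have := congrFun h0 i
      rw [Pi.smul_apply, Pi.zero_apply] at this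
      exact smul_ne_zero hκ.ne' (he i) this
    obtain ⟨d, hd, -⟩ := hDz c _ h2 h3
    exact ⟨d, hd⟩
  obtain ⟨S, hS, hS'⟩ := cover_of_dirs hK hKc D (by
    rintro ⟨x, y⟩ hxy
    by_cases hy : y = 0
    · obtain ⟨d, hd⟩ := hDne
      subst hy
      obtain ⟨ε, hε, h1⟩ := exists_small isOpen_interior (hzero x) (-d)
      exact ⟨d, hd, ε, hε, by rwa [smul_neg, ← sub_eq_add_neg] at h1⟩
    · exact hDz x y hxy hy)
  refine ⟨S, hS.trans ?_, hS'⟩
  have h0 : (0 : ∀ i, E i) ∈ Fintype.piFinset W := Fintype.mem_piFinset.2 fun i => (hW i).2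
  rw [hD, Finset.card_product, Finset.card_singleton, one_mul,
    Finset.card_erase_of_mem h0, Fintype.card_piFinset]
  exact Nat.sub_le_sub_right (Finset.prod_le_prod' fun i _ => (hW i).1) 1

end Sum

end Pool.Agent.H765R3.Had
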