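import Mathlib
import Pool.Agent.H765R3.Had.Sum

set_option autoImplicit false

open Set Filter Topology

namespace Pool.Agent.H765R3.Had

theorem line {V : Type*} [NormedAddCommGroup V] [NormedSpace ℝ V] {L : Set V}
    (hL : Convex ℝ L) (hLc : IsCompact L) (h0 : (0 : V) ∈ interior L) {a u : V} (hu : u ≠ 0)
    {ρ : ℝ} (ha : gauge L a < ρ) : ∃ s : ℝ, 0 < s ∧ gauge L (a + s • u) = ρ := by
  have hn : L ∈ 𝓝 (0 : V) := mem_interior_iff_mem_nhds.1 h0
  have hcont : Continuous (gauge L) := continuous_gauge hL hn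
  have habs : Absorbent ℝ L := absorbent_nhds_zero hn
  have hgu : 0 < gauge L u := (gauge_pos habs (hLc.isVonNBounded ℝ)).2 hu
  have hρ : 0 < ρ := (gauge_nonneg _).trans_lt ha
  have hna : 0 ≤ gauge L (-a) := gauge_nonneg _
  set S : ℝ := (ρ + gauge L (-a)) / gauge L u with hS
  have hS0 : 0 ≤ S := by positivity
  have hlast : ρ ≤ gauge L (a + S • u) := by
    have h1 : gauge L (S • u) ≤ gauge L (a + S • u) + gauge L (-a) := by
      have := gauge_add_le hL habs (a + S • u) (-a)
      have e : a + S • u + -a = S • u := by abel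
      rwa [e] at this
    rw [gauge_smul_of_nonneg hS0, smul_eq_mul, hS, div_mul_cancel₀ _ hgu.ne'] at h1
    linarith
  have hc : ContinuousOn (fun s : ℝ => gauge L (a + s • u)) (Icc 0 S) :=
    (hcont.comp (by fun_prop)).continuousOn
  have hiv := intermediate_value_Icc hS0 hc
  obtain ⟨s, hs, hs'⟩ := hiv ⟨by simpa using ha.le, hlast⟩
  refine ⟨s, lt_of_le_of_ne hs.1 ?_, hs'⟩
  rintro rfl
  simp only [zero_smul, add_zero] at hs'
  exact ha.ne hs'

section Sum

variable {ι : Type*} [Fintype ι] [DecidableEq ι] {F : Type*} [NormedAddCommGroup F]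
  [NormedSpace ℝ F] {E : ι → Type*} [∀ i, NormedAddCommGroup (E i)] [∀ i, NormedSpace ℝ (E i)]
  {K : Set (F × (∀ i, E i))} {L : ∀ i, Set (E i)} [∀ i, Nontrivial (E i)]

theorem one_block (hL : ∀ i, Convex ℝ (L i)) (hLc : ∀ i, IsCompact (L i))
    (hL0 : ∀ i, (0 : E i) ∈ interior (L i)) (hK : Convex ℝ K)
    (hinv : ∀ x y y', (x, y) ∈ K → (∀ i, gauge (L i) (y' i) = gauge (L i) (y i)) → (x, y') ∈ K)
    {x : F} {y : ∀ i, E i} (h : (x, y) ∈ K) (j : ι) {a : E j}
    (ha : gauge (L j) a ≤ gauge (L j) (y j)) : (x, Function.update y j a) ∈ K := by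
  have key : ∀ b : E j, gauge (L j) b = gauge (L j) (y j) → (x, Function.update y j b) ∈ K := by
    intro b hb
    refine hinv x y _ h fun i => ?_
    by_cases hi : i = j
    · subst hi
      rw [Function.update_self]
      exact hb
    · rw [Function.update_of_ne hi]
  rcases ha.lt_or_eq with hlt | heq
  · obtain ⟨u, hu⟩ := exists_ne (0 : E j)
    obtain ⟨s, hs, hs'⟩ := line (hL j) (hLc j) (hL0 j) hu hlt
    obtain ⟨t, ht, ht'⟩ := line (hL j) (hLc j) (hL0 j) (neg_ne_zero.2 hu) hlt
    have h1 := key _ hs'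
    have h2 := key _ ht'
    have hst : 0 < s + t := by positivity
    have h3 := hK h1 h2 (a := t / (s + t)) (b := s / (s + t)) (by positivity) (by positivity)
      (by field_simp; ring)
    convert h3 using 1
    have hsum : t / (s + t) + s / (s + t) = 1 := by field_simp; ring
    ext i
    · simp only [Prod.fst_add, Prod.smul_fst]
      rw [← add_smul, hsum, one_smul]
    · simp only [Prod.snd_add, Prod.smul_snd, Pi.add_apply, Pi.smul_apply]
      by_cases hi : i = j
      · subst hi
        simp only [Function.update_self]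
        have e1 : (t / (s + t)) • (a + s • u) + (s / (s + t)) • (a + t • -u) =
            (t / (s + t) + s / (s + t)) • a + ((t / (s + t)) * s - (s / (s + t)) * t) • u := by
          rw [smul_add, smul_add, smul_neg, smul_neg, smul_smul, smul_smul, add_smul, sub_smul]
          abel
        have e2 : (t / (s + t)) * s - (s / (s + t)) * t = 0 := by field_simp; ring
        rw [e1, e2, hsum, one_smul, zero_smul, add_zero]
      · simp only [Function.update_of_ne hi]
        rw [← add_smul, hsum, one_smul]
  · exact key a heq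

theorem mono_of_inv (hL : ∀ i, Convex ℝ (L i)) (hLc : ∀ i, IsCompact (L i))
    (hL0 : ∀ i, (0 : E i) ∈ interior (L i)) (hK : Convex ℝ K)
    (hinv : ∀ x y y', (x, y) ∈ K → (∀ i, gauge (L i) (y' i) = gauge (L i) (y i)) → (x, y') ∈ K) :
    ∀ x y y', (x, y) ∈ K → (∀ i, gauge (L i) (y' i) ≤ gauge (L i) (y i)) → (x, y') ∈ K := by
  intro x y y' h hle
  have key : ∀ s : Finset ι, (x, fun i => if i ∈ s then y' i else y i) ∈ K := by
    intro s
    induction s using Finset.induction_on with
    | empty => simpa using h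
    | insert j s hj ih =>
      have h1 := one_block hL hLc hL0 hK hinv ih j (a := y' j) (by simpa [hj] using hle j)
      convert h1 using 2
      funext i
      by_cases hi : i = j
      · subst hi
        simp
      · rw [Function.update_of_ne hi]
        simp [hi]
  have := key Finset.univ
  simpa using this

omit [DecidableEq ι] in
theorem section_body (hL : ∀ i, Convex ℝ (L i)) (hLc : ∀ i, IsCompact (L i))
    (hL0 : ∀ i, (0 : E i) ∈ interior (L i))
    (hK : Convex ℝ K) (hKc : IsCompact K) (hKi : (interior K).Nonempty)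
    (hmono : ∀ x y y', (x, y) ∈ K → (∀ i, gauge (L i) (y' i) ≤ gauge (L i) (y i)) → (x, y') ∈ K) :
    Convex ℝ {x | (x, (0 : ∀ i, E i)) ∈ K} ∧ IsCompact {x | (x, (0 : ∀ i, E i)) ∈ K} ∧
      (interior {x | (x, (0 : ∀ i, E i)) ∈ K}).Nonempty := by
  classical
  refine ⟨?_, ?_, ?_⟩
  · intro x hx z hz a b ha hb hab
    have := hK hx hz ha hb hab
    simpa using this
  · refine (hKc.image continuous_fst).of_isClosed_subset
      (hKc.isClosed.preimage (f := fun x : F => (x, (0 : ∀ i, E i))) (by fun_prop)) ?_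
    intro x hx
    exact ⟨_, hx, rfl⟩
  · have hpos : ∀ i, ∀ v : E i, v ≠ 0 → 0 < gauge (L i) v := fun i v hv =>
      (gauge_pos (absorbent_nhds_zero (mem_interior_iff_mem_nhds.1 (hL0 i)))
        ((hLc i).isVonNBounded ℝ)).2 hv
    choose e he using fun i => exists_ne (0 : E i)
    obtain ⟨⟨c, h⟩, hch⟩ := hKi
    obtain ⟨κ, hκ, h1⟩ := exists_small isOpen_interior hch
      ((0, fun i => if h i = 0 then e i else h i) : F × (∀ i, E i))
    have h2 : (c, (0 : ∀ i, E i)) ∈ interior K := by
      have e1 : ((c, h) + κ • ((0, fun i => if h i = 0 then e i else h i) : F × (∀ i, E i))) =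
          (c, fun i => h i + κ • (if h i = 0 then e i else h i)) := by
        ext <;> simp
      rw [e1] at h1
      refine strict_dom hL hL0 hmono h1 fun i => ?_
      rw [Pi.zero_apply, gauge_zero]
      refine hpos i _ ?_
      by_cases hi : h i = 0
      · rw [if_pos hi, hi, zero_add]
        exact smul_ne_zero hκ.ne' (he i)
      · rw [if_neg hi]
        have : h i + κ • h i = (1 + κ) • h i := by rw [add_smul, one_smul]
        rw [this]
        exact smul_ne_zero (by positivity) hi
    refine ⟨c, ?_⟩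
    rw [mem_interior]
    refine ⟨(fun x : F => (x, (0 : ∀ i, E i))) ⁻¹' interior K, fun x hx => ?_,
      isOpen_interior.preimage (by fun_prop), h2⟩
    exact interior_subset (s := K) hx

end Sum

/-- The unit ball of `ℝ^m` is covered by `m + 1` translates of its interior. -/
theorem ball_cover (m : ℕ) : ∃ T : Finset (EuclideanSpace ℝ (Fin m)), T.card ≤ m + 1 ∧
    Metric.closedBall (0 : EuclideanSpace ℝ (Fin m)) 1 ⊆
      ⋃ t ∈ T, (fun x => t + x) '' interior (Metric.closedBall (0 : EuclideanSpace ℝ (Fin m)) 1) := by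
  classical
  set e : Fin m → EuclideanSpace ℝ (Fin m) := fun i => EuclideanSpace.single i (1 : ℝ) with he
  set D : Finset (EuclideanSpace ℝ (Fin m)) := insert (-∑ i, e i) (Finset.univ.image e) with hD
  have hDc : D.card ≤ m + 1 := by
    refine (Finset.card_insert_le _ _).trans (Nat.succ_le_succ ?_)
    exact Finset.card_image_le.trans (by simp)
  obtain ⟨T, hT, hT'⟩ := cover_of_dirs (convex_closedBall (0 : EuclideanSpace ℝ (Fin m)) 1)
    (isCompact_closedBall _ _) D (by
    intro z hz
    rw [interior_closedBall _ one_ne_zero]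
    rw [mem_closedBall_zero_iff] at hz
    by_cases hz0 : z = 0
    · obtain ⟨ε, hε, h⟩ := exists_small (Metric.isOpen_ball (x := (0 : EuclideanSpace ℝ (Fin m)))
        (ε := 1)) (z := z) (by rw [hz0]; simp) (-(-∑ i, e i))
      exact ⟨_, Finset.mem_insert_self _ _, ε, hε, by rwa [smul_neg, ← sub_eq_add_neg] at h⟩
    · have hd : ∃ d ∈ D, 0 < inner ℝ z d := by
        by_contra hcon
        push Not at hcon
        have h1 : ∀ i, z i ≤ 0 := by
          intro i
          have := hcon (e i) (Finset.mem_insert_of_mem (Finset.mem_image_of_mem _ (Finset.mem_univ i)))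
          rw [he, EuclideanSpace.inner_single_right] at this
          simpa using this
        have h2 := hcon (-∑ i, e i) (Finset.mem_insert_self _ _)
        rw [inner_neg_right, inner_sum] at h2
        have h3 : ∀ i, inner ℝ z (e i) = z i := by
          intro i
          rw [he, EuclideanSpace.inner_single_right]
          simp
        simp only [h3] at h2
        have h4 : ∑ i, z i = 0 := le_antisymm (Finset.sum_nonpos fun i _ => h1 i) (by linarith)
        have h5 := (Finset.sum_eq_zero_iff_of_nonpos fun i _ => h1 i).1 h4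
        exact hz0 (by ext i; exact h5 i (Finset.mem_univ i))
      obtain ⟨d, hdD, hd⟩ := hd
      have hd0 : 0 < ‖d‖ ^ 2 := by
        have : d ≠ 0 := by
          rintro rfl
          rw [inner_zero_right] at hd
          exact lt_irrefl _ hd
        positivity
      refine ⟨d, hdD, inner ℝ z d / ‖d‖ ^ 2, by positivity, ?_⟩
      rw [mem_ball_zero_iff]
      have h1 := norm_sub_sq_real z ((inner ℝ z d / ‖d‖ ^ 2) • d)
      rw [inner_smul_right, norm_smul, mul_pow, Real.norm_eq_abs, sq_abs] at h1
      have h2 : ‖z‖ ^ 2 ≤ 1 := by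
        have := norm_nonneg z
        nlinarith
      have h3 : ‖z - (inner ℝ z d / ‖d‖ ^ 2) • d‖ ^ 2 < 1 := by
        rw [h1]
        have : ‖z‖ ^ 2 - 2 * (inner ℝ z d / ‖d‖ ^ 2 * inner ℝ z d) +
            (inner ℝ z d / ‖d‖ ^ 2) ^ 2 * ‖d‖ ^ 2 = ‖z‖ ^ 2 - (inner ℝ z d) ^ 2 / ‖d‖ ^ 2 := by
          field_simp
          ring
        rw [this]
        have : 0 < (inner ℝ z d) ^ 2 / ‖d‖ ^ 2 := by positivity
        linarith
      have h4 := norm_nonneg (z - (inner ℝ z d / ‖d‖ ^ 2) • d)
      nlinarith)
  exact ⟨T, hT.trans hDc, hT'⟩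

/-- A convex body in `ℝ^k`, `k ≤ 1`, is covered by `2 ^ k` translates of its interior. -/
theorem line_cover (k : ℕ) (hk : k ≤ 1) (B : Set (EuclideanSpace ℝ (Fin k))) (hB : Convex ℝ B)
    (hBc : IsCompact B) (hBi : (interior B).Nonempty) :
    ∃ T : Finset (EuclideanSpace ℝ (Fin k)), T.card ≤ 2 ^ k ∧
      B ⊆ ⋃ t ∈ T, (fun x => t + x) '' interior B := by
  classical
  obtain ⟨c, hc⟩ := hBi
  interval_cases k
  · refine ⟨{0}, by simp, fun z _ => ?_⟩
    simp only [Finset.mem_singleton, iUnion_iUnion_eq_left, zero_add, image_id']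
    rwa [Subsingleton.elim z c]
  · set v : EuclideanSpace ℝ (Fin 1) := EuclideanSpace.single 0 (1 : ℝ) with hv
    obtain ⟨T, hT, hT'⟩ := cover_of_dirs hB hBc {v, -v} (by
      intro z hz
      have hzc : z = c + (z 0 - c 0) • v := by
        ext i
        have : i = 0 := Subsingleton.elim _ _
        subst this
        simp [hv]
      rcases lt_trichotomy (z 0 - c 0) 0 with h | h | h
      · refine ⟨-v, by simp, -(z 0 - c 0), by linarith, ?_⟩
        have : z - (-(z 0 - c 0)) • (-v) = c := by
          rw [smul_neg, neg_smul, neg_neg]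
          nth_rewrite 1 [hzc]
          abel
        rwa [this]
      · have hzc' : z = c := by rw [hzc, h, zero_smul, add_zero]
        obtain ⟨ε, hε, h⟩ := exists_small isOpen_interior hc (-v)
        exact ⟨v, by simp, ε, hε, by rwa [hzc', sub_eq_add_neg, ← smul_neg]⟩
      · refine ⟨v, by simp, z 0 - c 0, h, ?_⟩
        have : z - (z 0 - c 0) • v = c := by
          nth_rewrite 1 [hzc]
          abel
        rwa [this])
    exact ⟨T, hT.trans (Finset.card_le_two.trans (by norm_num)), hT'⟩

end Pool.Agent.H765R3.Had
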