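import Mathlib
import Pool.Agent.H765R3.Had.Grp

set_option autoImplicit false

open Set Filter Topology

open scoped InnerProductSpace

namespace Pool.Agent.H765R3.Had.Grp

theorem uniform {V : Type*} [NormedAddCommGroup V] [InnerProductSpace ℝ V]
    [FiniteDimensional ℝ V] {K : Set V} (hKc : IsCompact K) (D : Finset V)
    (hgood : ∀ u : V, u ≠ 0 → ∃ w ∈ D, ∀ x ∈ K, (∀ y ∈ K, ⟪u, y⟫_ℝ ≤ ⟪u, x⟫_ℝ) →
      0 < ⟪w, x⟫_ℝ) :
    ∃ β : ℝ, 0 < β ∧ ∀ u : V, u ≠ 0 → ∃ w ∈ D, ∀ x ∈ K, (∀ y ∈ K, ⟪u, y⟫_ℝ ≤ ⟪u, x⟫_ℝ) →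
      β < ⟪w, x⟫_ℝ := by
  classical
  by_contra hcon
  push Not at hcon
  have h1 : ∀ n : ℕ, ∃ u : V, ‖u‖ = 1 ∧ ∀ w : D, ∃ x ∈ K,
      (∀ y ∈ K, ⟪u, y⟫_ℝ ≤ ⟪u, x⟫_ℝ) ∧ ⟪(w : V), x⟫_ℝ ≤ 1 / ((n : ℝ) + 1) := by
    intro n
    obtain ⟨u, hu, h⟩ := hcon (1 / ((n : ℝ) + 1)) (by positivity)
    have hnu : 0 < ‖u‖ := norm_pos_iff.2 hu
    refine ⟨‖u‖⁻¹ • u, ?_, fun w => ?_⟩
    · rw [norm_smul, norm_inv, norm_norm, inv_mul_cancel₀ hnu.ne']
    · obtain ⟨x, hx, hmax, hle⟩ := h w w.2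
      refine ⟨x, hx, fun y hy => ?_, hle⟩
      rw [inner_smul_left, inner_smul_left]
      simp only [conj_trivial]
      exact mul_le_mul_of_nonneg_left (hmax y hy) (by positivity)
  choose u hu x hxK hmax hle using h1
  have hS : IsCompact ((Metric.sphere (0 : V) 1) ×ˢ (Set.univ.pi fun _ : D => K)) :=
    (isCompact_sphere _ _).prod (isCompact_univ_pi fun _ => hKc)
  obtain ⟨⟨a, b⟩, ⟨ha, hb⟩, φ, hφ, hlim⟩ := hS.tendsto_subseq
    (x := fun n => (u n, fun w => x n w)) (fun n => ⟨by simpa using hu n, fun w _ => hxK n w⟩)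
  have ha' : ‖a‖ = 1 := by simpa using ha
  have ha0 : a ≠ 0 := by
    intro h
    rw [h, norm_zero] at ha'
    exact zero_ne_one ha'
  have hlu : Tendsto (fun n => u (φ n)) atTop (𝓝 a) :=
    (continuous_fst.tendsto _).comp hlim
  have hlx : ∀ w : D, Tendsto (fun n => x (φ n) w) atTop (𝓝 (b w)) := fun w =>
    ((continuous_apply w).comp continuous_snd).tendsto _ |>.comp hlim
  obtain ⟨w, hw, h⟩ := hgood a ha0
  have hb1 : b ⟨w, hw⟩ ∈ K := hb ⟨w, hw⟩ (mem_univ _)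
  have hb2 : ∀ y ∈ K, ⟪a, y⟫_ℝ ≤ ⟪a, b ⟨w, hw⟩⟫_ℝ := by
    intro y hy
    refine le_of_tendsto_of_tendsto' (hlu.inner tendsto_const_nhds)
      (hlu.inner (hlx ⟨w, hw⟩)) fun n => ?_
    exact hmax (φ n) ⟨w, hw⟩ y hy
  have h3 := h _ hb1 hb2
  have h4 : ⟪w, b ⟨w, hw⟩⟫_ℝ ≤ 0 := by
    have hz : Tendsto (fun n : ℕ => (1 : ℝ) / ((φ n : ℝ) + 1)) atTop (𝓝 0) :=
      tendsto_one_div_add_atTop_nhds_zero_nat.comp hφ.tendsto_atTop
    refine le_of_tendsto_of_tendsto' (tendsto_const_nhds.inner (hlx ⟨w, hw⟩)) hz fun n => ?_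
    exact hle (φ n) ⟨w, hw⟩
  linarith

theorem separate (r : ℕ) (m : Fin r → ℕ) (hm : ∀ i, 1 ≤ m i)
    (Γ : ∀ i, Set (EuclideanSpace ℝ (Fin (m i)) ≃ₗᵢ[ℝ] EuclideanSpace ℝ (Fin (m i))))
    (hΓ : ∀ i, ∀ u x : EuclideanSpace ℝ (Fin (m i)), ‖u‖ = 1 → ‖x‖ = 1 →
      ∃ g ∈ Γ i, √(1 - 1 / (m i : ℝ) ^ 2) < ⟪u, g x⟫_ℝ)
    (K : Set (PiLp 2 fun i => EuclideanSpace ℝ (Fin (m i)))) (hKc : IsCompact K)
    (h0 : 0 ∈ interior K)
    (hinv : ∀ i, ∀ g ∈ Γ i, ∀ x ∈ K, ∀ y : PiLp 2 fun i => EuclideanSpace ℝ (Fin (m i)),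
      y i = g (x i) → (∀ j, j ≠ i → y j = x j) → y ∈ K) :
    ∃ H : Finset ((PiLp 2 fun i => EuclideanSpace ℝ (Fin (m i))) × ℝ),
      H.card ≤ ∏ i, (m i + 2) - 1 ∧
      ∀ u x₀, u ≠ 0 → x₀ ∈ K → (∀ y ∈ K, ⟪u, y⟫_ℝ ≤ ⟪u, x₀⟫_ℝ) →
        ∃ h ∈ H, ⟪h.1, 0⟫_ℝ < h.2 ∧ ∀ x ∈ K, ⟪u, x⟫_ℝ = ⟪u, x₀⟫_ℝ → h.2 < ⟪h.1, x⟫_ℝ := by
  classical
  choose D hDc hD1 hD using fun i => simplex_dirs (m i) (hm i)
  set W : ∀ i, Finset (EuclideanSpace ℝ (Fin (m i))) := fun i => insert 0 (D i) with hW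
  set P : Finset (∀ i, EuclideanSpace ℝ (Fin (m i))) := (Fintype.piFinset W).erase 0 with hP
  have hPc : P.card ≤ ∏ i, (m i + 2) - 1 := by
    have h00 : (0 : ∀ i, EuclideanSpace ℝ (Fin (m i))) ∈ Fintype.piFinset W :=
      Fintype.mem_piFinset.2 fun i => Finset.mem_insert_self _ _
    rw [hP, Finset.card_erase_of_mem h00, Fintype.card_piFinset]
    refine Nat.sub_le_sub_right (Finset.prod_le_prod' fun i _ => ?_) 1
    exact (Finset.card_insert_le _ _).trans (Nat.succ_le_succ (hDc i))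
  have hgood : ∀ u : PiLp 2 fun i => EuclideanSpace ℝ (Fin (m i)), u ≠ 0 →
      ∃ w ∈ P.image (WithLp.toLp 2), ∀ x ∈ K, (∀ y ∈ K, ⟪u, y⟫_ℝ ≤ ⟪u, x⟫_ℝ) →
      0 < ⟪w, x⟫_ℝ := by
    intro u hu
    have ht : ∀ i, ∃ t ∈ W i, (u i = 0 → t = 0) ∧
        (u i ≠ 0 → t ∈ D i ∧ 1 / (m i : ℝ) ≤ ⟪‖u i‖⁻¹ • u i, t⟫_ℝ) := by
      intro i
      by_cases hi : u i = 0
      · exact ⟨0, Finset.mem_insert_self _ _, fun _ => rfl, fun h => absurd hi h⟩
      · obtain ⟨t, ht, h⟩ := hD i (‖u i‖⁻¹ • u i) (by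
          rw [norm_smul, norm_inv, norm_norm, inv_mul_cancel₀ (norm_ne_zero_iff.2 hi)])
        exact ⟨t, Finset.mem_insert_of_mem ht, fun h => absurd h hi, fun _ => ⟨ht, h⟩⟩
    choose t htW ht0 htD using ht
    refine ⟨WithLp.toLp 2 t, Finset.mem_image_of_mem _ (Finset.mem_erase.2 ⟨?_,
      Fintype.mem_piFinset.2 htW⟩), ?_⟩
    · intro h
      refine hu (PiLp.ext fun i => ?_)
      by_contra hi
      have h1 := hD1 i (t i) (htD i hi).1
      rw [h, Pi.zero_apply, norm_zero] at h1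
      exact zero_ne_one h1
    intro x hx hmax
    -- each block
    have hblock : ∀ i, 0 ≤ ⟪t i, x i⟫_ℝ ∧ (u i ≠ 0 → x i ≠ 0 → 0 < ⟪t i, x i⟫_ℝ) := by
      intro i
      have key : u i ≠ 0 → x i ≠ 0 → 0 < ⟪t i, x i⟫_ℝ := by
        intro hui hxi
        have hnu : 0 < ‖u i‖ := norm_pos_iff.2 hui
        have hnx : 0 < ‖x i‖ := norm_pos_iff.2 hxi
        have hu1 : ‖‖u i‖⁻¹ • u i‖ = 1 := by
          rw [norm_smul, norm_inv, norm_norm, inv_mul_cancel₀ hnu.ne']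
        have hx1 : ‖‖x i‖⁻¹ • x i‖ = 1 := by
          rw [norm_smul, norm_inv, norm_norm, inv_mul_cancel₀ hnx.ne']
        obtain ⟨g, hg, hgb⟩ := hΓ i _ _ hu1 hx1
        have hy : ⟪u i, g (x i)⟫_ℝ ≤ ⟪u i, x i⟫_ℝ := by
          have hyK : (WithLp.toLp 2 (Function.update x.ofLp i (g (x i))) :
              PiLp 2 fun i => EuclideanSpace ℝ (Fin (m i))) ∈ K :=
            hinv i g hg x hx _ (by simp) (fun j hj => by simp [Function.update_of_ne hj])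
          have h1 := hmax _ hyK
          rw [PiLp.inner_apply, PiLp.inner_apply, ← Finset.add_sum_erase _ _ (Finset.mem_univ i),
            ← Finset.add_sum_erase Finset.univ (fun j => ⟪u j, x j⟫_ℝ) (Finset.mem_univ i)] at h1
          have h2 : ∑ j ∈ Finset.univ.erase i, ⟪u j, (WithLp.toLp 2
              (Function.update x.ofLp i (g (x i))) :
              PiLp 2 fun i => EuclideanSpace ℝ (Fin (m i))) j⟫_ℝ =
              ∑ j ∈ Finset.univ.erase i, ⟪u j, x j⟫_ℝ := by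
            refine Finset.sum_congr rfl fun j hj => ?_
            have hj' : j ≠ i := (Finset.mem_erase.1 hj).1
            simp [Function.update_of_ne hj']
          rw [h2] at h1
          have h3 := le_of_add_le_add_right h1
          simpa using h3
        have hgt : √(1 - 1 / (m i : ℝ) ^ 2) < ⟪‖u i‖⁻¹ • u i, ‖x i‖⁻¹ • x i⟫_ℝ := by
          refine hgb.trans_le ?_
          rw [map_smul, inner_smul_left, inner_smul_right, inner_smul_left, inner_smul_right]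
          simp only [conj_trivial]
          gcongr
        have hmi : (1 : ℝ) ≤ m i := by exact_mod_cast hm i
        have h1m : 0 ≤ 1 - 1 / (m i : ℝ) ^ 2 := by
          rw [sub_nonneg, div_le_one (by positivity)]
          nlinarith
        have hpos := angle (hD1 i (t i) (htD i hui).1) hu1 hx1 (a := 1 / (m i : ℝ))
          (b := √(1 - 1 / (m i : ℝ) ^ 2)) (by positivity) (Real.sqrt_nonneg _)
          (by rw [Real.sq_sqrt h1m]; ring) (htD i hui).2 hgt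
        rw [inner_smul_right] at hpos
        exact (mul_pos_iff_of_pos_left (inv_pos.2 hnx)).1 hpos
      refine ⟨?_, key⟩
      by_cases hui : u i = 0
      · rw [ht0 i hui, inner_zero_left]
      · by_cases hxi : x i = 0
        · rw [hxi, inner_zero_right]
        · exact (key hui hxi).le
    have hux : 0 < ⟪u, x⟫_ℝ := by
      obtain ⟨δ, hδ, hball⟩ := Metric.isOpen_iff.1 isOpen_interior 0 h0
      have hnu : 0 < ‖u‖ := norm_pos_iff.2 hu
      have h1 : (δ / (2 * ‖u‖)) • u ∈ K := interior_subset (hball (by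
        rw [mem_ball_zero_iff, norm_smul, Real.norm_eq_abs, abs_of_pos (by positivity)]
        have : δ / (2 * ‖u‖) * ‖u‖ = δ / 2 := by field_simp
        rw [this]; linarith))
      have h2 := hmax _ h1
      rw [inner_smul_right, real_inner_self_eq_norm_sq] at h2
      have : 0 < δ / (2 * ‖u‖) * ‖u‖ ^ 2 := by positivity
      linarith
    have hex : ∃ i, u i ≠ 0 ∧ x i ≠ 0 := by
      by_contra hcon
      push Not at hcon
      rw [PiLp.inner_apply] at hux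
      have : ∑ i, ⟪u i, x i⟫_ℝ = 0 := Finset.sum_eq_zero fun i _ => by
        by_cases hui : u i = 0
        · rw [hui, inner_zero_left]
        · rw [hcon i hui, inner_zero_right]
      linarith
    obtain ⟨i, hui, hxi⟩ := hex
    rw [PiLp.inner_apply]
    exact Finset.sum_pos' (fun j _ => (hblock j).1) ⟨i, Finset.mem_univ i, (hblock i).2 hui hxi⟩
  obtain ⟨β, hβ, hu⟩ := uniform hKc _ hgood
  refine ⟨(P.image (WithLp.toLp 2)).image fun w => (w, β), ?_, ?_⟩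
  · exact Finset.card_image_le.trans (Finset.card_image_le.trans hPc)
  · intro u x₀ hu0 _ hmax
    obtain ⟨w, hw, h⟩ := hu u hu0
    refine ⟨(w, β), Finset.mem_image_of_mem _ hw, by rw [inner_zero_right]; exact hβ, ?_⟩
    intro x hx hxe
    exact h x hx fun y hy => by rw [hxe]; exact hmax y hy

end Pool.Agent.H765R3.Had.Grp
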